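import Pool.Agent.Helper63.P705.BS.Goals

/-!
# MP_705522_gt, packet BS-BE: the geometry of a cell
-/

namespace Pool.Agent.Helper93.BS

open Pool.Agent.Helper63.P705
open Pool.Agent.Helper53.PT (mo m3 f0 f1 f2 tk Nn AA AB FP GTP GSN GNI GFI sg)

theorem shl (a b : ℕ) : Nat.shiftLeft a b = a * 2 ^ b := Nat.shiftLeft_eq a b
theorem shr (a b : ℕ) : Nat.shiftRight a b = a / 2 ^ b := Nat.shiftRight_eq_div_pow a b

theorem cd_def (x y : ℕ) : cd x y = (x + (y - 1)) / y := rfl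

theorem cd_mul_ge (x y : ℕ) (hy : 0 < y) : x ≤ cd x y * y := by
  rw [cd_def]
  have h1 := Nat.div_add_mod (x + (y - 1)) y
  have h2 := Nat.mod_lt (x + (y - 1)) hy
  have h3 : (x + (y - 1)) / y * y = y * ((x + (y - 1)) / y) := Nat.mul_comm _ _
  omega

theorem cd_ge (x y : ℕ) (hy : 0 < y) : (x : ℝ) / y ≤ (cd x y : ℕ) := by
  have hy' : (0 : ℝ) < y := by exact_mod_cast hy
  rw [div_le_iff₀ hy']
  exact_mod_cast cd_mul_ge x y hy

theorem cd_le_of (x y z : ℕ) (hy : 0 < y) (h : x ≤ z * y) : cd x y ≤ z := by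
  rw [cd_def]
  have : (x + (y - 1)) / y < z + 1 := by
    rw [Nat.div_lt_iff_lt_mul hy]
    have h4 : (z + 1) * y = z * y + y := by ring
    omega
  omega

theorem Gamma_le_max {a b x : ℝ} (ha : 0 < a) (h1 : a ≤ x) (h2 : x ≤ b) :
    Real.Gamma x ≤ max (Real.Gamma a) (Real.Gamma b) := by
  have hab : a ≤ b := h1.trans h2
  have hx : x ∈ segment ℝ a b := by
    rw [segment_eq_Icc hab]; exact ⟨h1, h2⟩
  exact Real.convexOn_Gamma.le_on_segment (Set.mem_Ioi.2 ha) (Set.mem_Ioi.2 (ha.trans_le hab)) hx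

theorem Gamma_ge_one {x : ℝ} (h0 : 0 < x) (h1 : x ≤ 1) : 1 ≤ Real.Gamma x := by
  by_contra hc
  push Not at hc
  rcases h1.eq_or_lt with h | h
  · rw [h, Real.Gamma_one] at hc; exact lt_irrefl _ hc
  · have hpos : 0 < 2 - x := by linarith
    have hcv : Real.Gamma ((1 / (2 - x)) • x + (1 - 1 / (2 - x)) • (2 : ℝ)) ≤
        (1 / (2 - x)) • Real.Gamma x + (1 - 1 / (2 - x)) • Real.Gamma 2 :=
      Real.convexOn_Gamma.2 (Set.mem_Ioi.2 h0) (Set.mem_Ioi.2 (by norm_num : (0 : ℝ) < 2))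
        (by positivity) (by rw [sub_nonneg, div_le_one hpos]; linarith) (by ring)
    have h2 : (2 : ℝ) - x ≠ 0 := by intro hh; linarith
    have h3 : (1 / (2 - x)) • x + (1 - 1 / (2 - x)) • (2 : ℝ) = 1 := by
      simp only [smul_eq_mul]
      field_simp
      ring
    rw [h3, Real.Gamma_one] at hcv
    have hG2 : Real.Gamma 2 = 1 := Real.Gamma_two
    rw [hG2] at hcv
    simp only [smul_eq_mul] at hcv
    have h4 : 0 < 1 / (2 - x) := by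
      have : 0 < 2 - x := by linarith
      positivity
    nlinarith

theorem Gamma_anti {x y : ℝ} (h0 : 0 < x) (h1 : x ≤ y) (h2 : y ≤ 1) :
    Real.Gamma y ≤ Real.Gamma x := by
  have h3 := Gamma_ge_one h0 (h1.trans h2)
  have h4 := Gamma_le_max (a := x) (b := 1) (x := y) h0 h1 h2
  rw [Real.Gamma_one, max_eq_left h3] at h4
  exact h4

theorem Gamma_le_one {x : ℝ} (h1 : 1 ≤ x) (h2 : x ≤ 2) : Real.Gamma x ≤ 1 := by
  have h := Gamma_le_max (a := 1) (b := 2) (x := x) one_pos h1 h2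
  have hG2 : Real.Gamma 2 = 1 := Real.Gamma_two
  rw [Real.Gamma_one, hG2, max_self] at h
  exact h

theorem tLo_sq (hN : NumOK) (hA : BA) (hB : BB) (a1 a2 : ℕ) (h1 : 2048 ≤ a1) (h12 : a1 ≤ a2)
    (h2 : a2 < 4096) (θ : ℝ) (ht1 : (a1 : ℝ) / 8192 ≤ θ) (ht2 : θ ≤ (a2 : ℝ) / 8192) :
    ((tLo a1 a2 : ℕ) : ℝ) ^ 2 ≤ 2 ^ 126 * (Real.Gamma (1 - θ) / Real.Gamma (1 + θ)) := by
  obtain ⟨hA1, -⟩ := hA
  have hB' := hB hN
  have r1 : (2048 : ℝ) ≤ a1 := by exact_mod_cast h1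
  have r2 : (a2 : ℝ) < 4096 := by exact_mod_cast h2
  have r12 : (a1 : ℝ) ≤ a2 := by exact_mod_cast h12
  have hth1 : 1 / 4 ≤ θ := by linarith
  have hth2 : θ < 1 / 2 := by linarith
  -- the three Gamma bounds
  obtain ⟨-, hL, -⟩ := hB' (8192 - a1) (by omega) (by omega)
  obtain ⟨hU1, -, -⟩ := hB' (8192 + a1) (by omega) (by omega)
  obtain ⟨hU2, -, -⟩ := hB' (8192 + a2) (by omega) (by omega)
  have c1 : (((8192 - a1 : ℕ) : ℝ)) / 8192 = 1 - (a1 : ℝ) / 8192 := by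
    rw [Nat.cast_sub (by omega)]; push_cast; ring
  have c2 : (((8192 + a1 : ℕ) : ℝ)) / 8192 = 1 + (a1 : ℝ) / 8192 := by
    push_cast; ring
  have c3 : (((8192 + a2 : ℕ) : ℝ)) / 8192 = 1 + (a2 : ℝ) / 8192 := by
    push_cast; ring
  rw [c1] at hL
  rw [c2] at hU1
  rw [c3] at hU2
  set gl : ℕ := gamL (8192 - a1) with hgl
  set gu1 : ℕ := gamU (8192 + a1) with hgu1
  set gu2 : ℕ := gamU (8192 + a2) with hgu2
  set M : ℕ := max gu1 gu2 with hM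
  have hGa : Real.Gamma (1 - (a1 : ℝ) / 8192) ≤ Real.Gamma (1 - θ) :=
    Gamma_anti (by linarith) (by linarith) (by linarith)
  have hGb : Real.Gamma (1 + θ) ≤ max (Real.Gamma (1 + (a1 : ℝ) / 8192)) (Real.Gamma (1 + (a2 : ℝ) / 8192)) :=
    Gamma_le_max (by linarith) (by linarith) (by linarith)
  have hMr : 2 ^ 60 * Real.Gamma (1 + θ) ≤ (M : ℝ) := by
    rw [hM, Nat.cast_max]
    rcases le_max_iff.1 hGb with h | h
    · exact le_max_of_le_left (le_trans (by gcongr) hU1)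
    · exact le_max_of_le_right (le_trans (by gcongr) hU2)
  have hGp : 0 < Real.Gamma (1 + θ) := Real.Gamma_pos_of_pos (by linarith)
  have hGm : 0 < Real.Gamma (1 - θ) := Real.Gamma_pos_of_pos (by linarith)
  have hMpos : (0 : ℝ) < M := lt_of_lt_of_le (by positivity) hMr
  have hdef : tLo a1 a2 = sqF (gl * 2 ^ 126 / M) (Nat.shiftLeft 10 60) := by
    unfold tLo
    rw [sq_eq, nmax_eq, shl]
    rfl
  have h3 := hA1 (gl * 2 ^ 126 / M) (Nat.shiftLeft 10 60)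
  rw [← hdef] at h3
  have h4 : ((tLo a1 a2 : ℕ) : ℝ) ^ 2 ≤ ((gl * 2 ^ 126 / M : ℕ) : ℝ) := by exact_mod_cast h3
  have h5 : ((gl * 2 ^ 126 / M : ℕ) : ℝ) ≤ ((gl * 2 ^ 126 : ℕ) : ℝ) / M := Nat.cast_div_le
  have h6 : ((gl * 2 ^ 126 : ℕ) : ℝ) = (gl : ℝ) * 2 ^ 126 := by push_cast; ring
  rw [h6] at h5
  refine h4.trans (h5.trans ?_)
  have h7 : (gl : ℝ) ≤ 2 ^ 60 * Real.Gamma (1 - θ) := hL.trans (by gcongr)
  calc (gl : ℝ) * 2 ^ 126 / M ≤ (2 ^ 60 * Real.Gamma (1 - θ)) * 2 ^ 126 / (2 ^ 60 * Real.Gamma (1 + θ)) := by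
        gcongr
    _ = 2 ^ 126 * (Real.Gamma (1 - θ) / Real.Gamma (1 + θ)) := by
        field_simp

theorem tLo_le (hN : NumOK) (hA : BA) (hB : BB) (a1 a2 : ℕ) (h1 : 2048 ≤ a1) (h12 : a1 ≤ a2)
    (h2 : a2 < 4096) (θ : ℝ) (ht1 : (a1 : ℝ) / 8192 ≤ θ) (ht2 : θ ≤ (a2 : ℝ) / 8192) :
    ((tLo a1 a2 : ℕ) : ℝ) ≤ 2 ^ 60 * tk θ 64 := by
  have h := tLo_sq hN hA hB a1 a2 h1 h12 h2 θ ht1 ht2
  have htk : 0 ≤ tk θ 64 := Real.sqrt_nonneg _
  generalize tLo a1 a2 = n at h ⊢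
  have hn : (0 : ℝ) ≤ (n : ℝ) := Nat.cast_nonneg n
  have hr : 0 ≤ 2 ^ 60 * tk θ 64 := mul_nonneg (by positivity) htk
  refine (sq_le_sq₀ hn hr).1 (h.trans (le_of_eq ?_))
  have r1 : (2048 : ℝ) ≤ a1 := by exact_mod_cast h1
  have r2 : (a2 : ℝ) < 4096 := by exact_mod_cast h2
  have hGp : 0 < Real.Gamma (1 + θ) := Real.Gamma_pos_of_pos (by linarith)
  have hGm : 0 < Real.Gamma (1 - θ) := Real.Gamma_pos_of_pos (by linarith)
  rw [mul_pow, tk, Real.sq_sqrt (by positivity)]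
  ring

theorem tk_ge (θ : ℝ) (h1 : 0 < θ) (h2 : θ < 1) : 8 ≤ tk θ 64 := by
  unfold tk
  apply Real.le_sqrt_of_sq_le
  have hGp : 0 < Real.Gamma (1 + θ) := Real.Gamma_pos_of_pos (by linarith)
  have e1 := Gamma_ge_one (x := 1 - θ) (by linarith) (by linarith)
  have e2 := Gamma_le_one (x := 1 + θ) (by linarith) (by linarith)
  rw [le_div_iff₀ hGp]
  nlinarith

theorem sin_part (hD : BD) (a1 : ℕ) (h1 : 2048 ≤ a1) (h2 : a1 ≤ 4096) (θ : ℝ)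
    (ht1 : (a1 : ℝ) / 8192 ≤ θ) (ht2 : θ ≤ 1 / 2) :
    (sinL a1 : ℝ) ≤ 2 ^ 60 * Real.sin (Real.pi * θ / 2) ∧ 0.38 ≤ Real.sin (Real.pi * θ / 2) := by
  have hp := Real.pi_pos
  have r1 : (2048 : ℝ) ≤ a1 := by exact_mod_cast h1
  obtain ⟨h3, -⟩ := hD a1 h1 h2
  constructor
  · refine h3.trans ?_
    have : Real.sin (Real.pi * ((a1 : ℝ) / 8192) / 2) ≤ Real.sin (Real.pi * θ / 2) := by
      apply Real.sin_le_sin_of_le_of_le_pi_div_two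
      · have : 0 ≤ Real.pi * ((a1 : ℝ) / 8192) / 2 := by positivity
        linarith
      · nlinarith
      · have : Real.pi * ((a1 : ℝ) / 8192) ≤ Real.pi * θ := by gcongr
        linarith
    gcongr
  · have h4 : Real.sin (Real.pi / 8) ≤ Real.sin (Real.pi * θ / 2) := by
      apply Real.sin_le_sin_of_le_of_le_pi_div_two
      · linarith
      · nlinarith
      · nlinarith
    refine le_trans ?_ h4
    rw [Real.sin_pi_div_eight]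
    have h5 : √(2 : ℝ) ≤ 1.4144 := by
      rw [Real.sqrt_le_left (by norm_num)]
      norm_num
    have h6 : (0.76 : ℝ) ≤ √(2 - √2) := by
      apply Real.le_sqrt_of_sq_le
      norm_num at h5 ⊢
      linarith
    norm_num at h6 ⊢
    linarith

theorem Nn_part (hN : NumOK) (hB : BB) (a1 : ℕ) (h1 : 2048 ≤ a1) (h2 : a1 < 4096) (θ : ℝ)
    (ht1 : (a1 : ℝ) / 8192 ≤ θ) (ht2 : θ ≤ 1 / 2) :
    ((Nat.shiftRight (Nat.mul a1 (gamL (Nat.sub 8192 a1))) 13 : ℕ) : ℝ) ≤ 2 ^ 60 * Nn θ ∧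
    0 < Nat.shiftRight (Nat.mul a1 (gamL (Nat.sub 8192 a1))) 13 := by
  obtain ⟨-, hL, hP⟩ := hB hN (8192 - a1) (by omega) (by omega)
  have hP' := hP (by omega)
  have c1 : (((8192 - a1 : ℕ) : ℝ)) / 8192 = 1 - (a1 : ℝ) / 8192 := by
    rw [Nat.cast_sub (by omega)]; push_cast; ring
  rw [c1] at hL
  have e1 : Nat.shiftRight (Nat.mul a1 (gamL (Nat.sub 8192 a1))) 13 = a1 * gamL (8192 - a1) / 2 ^ 13 := by
    rw [shr]; rfl
  rw [e1]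
  set g : ℕ := gamL (8192 - a1) with hg
  have r1 : (2048 : ℝ) ≤ a1 := by exact_mod_cast h1
  have hGm : 0 < Real.Gamma (1 - θ) := Real.Gamma_pos_of_pos (by linarith)
  constructor
  · have h5 : ((a1 * g / 2 ^ 13 : ℕ) : ℝ) ≤ ((a1 * g : ℕ) : ℝ) / ((2 ^ 13 : ℕ) : ℝ) := Nat.cast_div_le
    refine h5.trans ?_
    rw [Nat.cast_mul, show ((2 ^ 13 : ℕ) : ℝ) = 8192 by norm_num]
    have h6 : (g : ℝ) ≤ 2 ^ 60 * Real.Gamma (1 - θ) :=
      hL.trans (mul_le_mul_of_nonneg_left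
        (Gamma_anti (x := 1 - θ) (y := 1 - (a1 : ℝ) / 8192) (by linarith) (by linarith)
          (by linarith)) (by positivity))
    have h7 : (a1 : ℝ) * g / 8192 = ((a1 : ℝ) / 8192) * g := by ring
    rw [h7, Nn]
    have h8 : (0 : ℝ) ≤ g := Nat.cast_nonneg _
    calc ((a1 : ℝ) / 8192) * g ≤ θ * (2 ^ 60 * Real.Gamma (1 - θ)) := by
          gcongr
          linarith
      _ = 2 ^ 60 * (θ * Real.Gamma (1 - θ)) := by ring
  · apply Nat.div_pos _ (by positivity)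
    calc 2 ^ 13 ≤ 2048 * 2 ^ 59 := by norm_num
      _ ≤ a1 * g := Nat.mul_le_mul h1 hP'

theorem q_bounds (a1 a2 : ℕ) (h1 : 2048 ≤ a1) (h12 : a1 ≤ a2) (h2 : a2 < 4096) (θ : ℝ)
    (ht1 : (a1 : ℝ) / 8192 ≤ θ) (ht2 : θ ≤ (a2 : ℝ) / 8192) :
    (8192 : ℝ) / a2 ≤ 1 / θ ∧ 1 / θ ≤ 8192 / a1 ∧ 0 < θ := by
  have r1 : (2048 : ℝ) ≤ a1 := by exact_mod_cast h1
  have r2 : (a2 : ℝ) < 4096 := by exact_mod_cast h2
  have r12 : (a1 : ℝ) ≤ a2 := by exact_mod_cast h12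
  have hθ : 0 < θ := by linarith
  have ha1 : (0 : ℝ) < a1 := by linarith
  have ha2 : (0 : ℝ) < a2 := by linarith
  refine ⟨?_, ?_, hθ⟩
  · rw [div_le_div_iff₀ ha2 hθ]
    linarith
  · rw [div_le_div_iff₀ hθ ha1]
    linarith

theorem cs_alg (u v : ℕ) (C q : ℝ) (hC1 : C ≤ 1) (hqa : 2 ≤ q) (hqb : q ≤ 4)
    (s1 : C ≤ (q - 2) * (4 - q)) (s2 : C ≤ 1.5708 * (q - 2)) (s3 : C ≤ 1.5708 * (4 - q))
    (hu : 2 ^ 60 * (q - 2) ≤ (u : ℝ)) (hv : 2 ^ 60 * (4 - q) ≤ (v : ℝ)) :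
    2 ^ 60 * C ≤ ((min (2 ^ 60) (min (cd (u * v) (2 ^ 60))
      (min (cd (u * 15708) 10000) (cd (v * 15708) 10000))) : ℕ) : ℝ) := by
  rw [Nat.cast_min, Nat.cast_min, Nat.cast_min]
  have hu0 : (0 : ℝ) ≤ u := Nat.cast_nonneg u
  have hv0 : (0 : ℝ) ≤ v := Nat.cast_nonneg v
  refine le_min ?_ (le_min ?_ (le_min ?_ ?_))
  · push_cast
    linarith
  · refine le_trans ?_ (cd_ge (u * v) (2 ^ 60) (by norm_num))
    rw [Nat.cast_pow, Nat.cast_ofNat, le_div_iff₀ (by norm_num), Nat.cast_mul]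
    calc 2 ^ 60 * C * 2 ^ 60 ≤ 2 ^ 60 * ((q - 2) * (4 - q)) * 2 ^ 60 := by gcongr
      _ = (2 ^ 60 * (q - 2)) * (2 ^ 60 * (4 - q)) := by ring
      _ ≤ u * v := by
        have h0 : 0 ≤ 4 - q := by linarith
        gcongr
  · refine le_trans ?_ (cd_ge (u * 15708) 10000 (by norm_num))
    rw [le_div_iff₀ (by norm_num)]
    push_cast
    norm_num at s2 hu ⊢
    linarith
  · refine le_trans ?_ (cd_ge (v * 15708) 10000 (by norm_num))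
    rw [le_div_iff₀ (by norm_num)]
    push_cast
    norm_num at s3 hv ⊢
    linarith

theorem cs_part (hS : GSN) (a1 a2 : ℕ) (h1 : 2048 ≤ a1) (h12 : a1 ≤ a2) (h2 : a2 < 4096) (θ : ℝ)
    (ht1 : (a1 : ℝ) / 8192 ≤ θ) (ht2 : θ ≤ (a2 : ℝ) / 8192) :
    2 ^ 60 * |Real.cos (Real.pi * (1 / θ - 1) / 2)| ≤ csU a1 a2 := by
  obtain ⟨hq1, hq2, hθ⟩ := q_bounds a1 a2 h1 h12 h2 θ ht1 ht2
  have r1 : (2048 : ℝ) ≤ a1 := by exact_mod_cast h1
  have r2 : (a2 : ℝ) < 4096 := by exact_mod_cast h2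
  have r12 : (a1 : ℝ) ≤ a2 := by exact_mod_cast h12
  have ha1 : (0 : ℝ) < a1 := by linarith
  have ha2 : (0 : ℝ) < a2 := by linarith
  have hqa : 2 ≤ 1 / θ := by
    refine le_trans ?_ hq1
    rw [le_div_iff₀ ha2]
    linarith
  have hqb : 1 / θ ≤ 4 := by
    refine hq2.trans ?_
    rw [div_le_iff₀ ha1]
    linarith
  obtain ⟨s1, s2, s3⟩ := hS (1 / θ) hqa hqb
  set C : ℝ := |Real.cos (Real.pi * (1 / θ - 1) / 2)| with hC
  have hC1 : C ≤ 1 := Real.abs_cos_le_one _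
  set q : ℝ := 1 / θ with hq
  -- u and v
  have hu : 2 ^ 60 * (q - 2) ≤ ((cd ((8192 - 2 * a1) * 2 ^ 60) a1 : ℕ) : ℝ) := by
    have h3 := cd_ge ((8192 - 2 * a1) * 2 ^ 60) a1 (by omega)
    refine le_trans ?_ h3
    rw [le_div_iff₀ ha1]
    have h4 : (((8192 - 2 * a1) * 2 ^ 60 : ℕ) : ℝ) = (8192 - 2 * (a1 : ℝ)) * 2 ^ 60 := by
      rw [Nat.cast_mul, Nat.cast_sub (by omega)]
      push_cast
      ring
    rw [h4]
    have h5 : q * a1 ≤ 8192 := by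
      rw [le_div_iff₀ ha1] at hq2
      exact hq2
    nlinarith
  have hv : 2 ^ 60 * (4 - q) ≤ ((cd ((4 * a2 - 8192) * 2 ^ 60) a2 : ℕ) : ℝ) := by
    have h3 := cd_ge ((4 * a2 - 8192) * 2 ^ 60) a2 (by omega)
    refine le_trans ?_ h3
    rw [le_div_iff₀ ha2]
    have h4 : (((4 * a2 - 8192) * 2 ^ 60 : ℕ) : ℝ) = (4 * (a2 : ℝ) - 8192) * 2 ^ 60 := by
      rw [Nat.cast_mul, Nat.cast_sub (by omega)]
      push_cast
      ring
    rw [h4]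
    have h5 : 8192 ≤ q * a2 := by
      rw [div_le_iff₀ ha2] at hq1
      exact hq1
    nlinarith
  have hdef : csU a1 a2 = min (2 ^ 60) (min (cd (cd ((8192 - 2 * a1) * 2 ^ 60) a1 * cd ((4 * a2 - 8192) * 2 ^ 60) a2) (2 ^ 60))
      (min (cd (cd ((8192 - 2 * a1) * 2 ^ 60) a1 * 15708) 10000) (cd (cd ((4 * a2 - 8192) * 2 ^ 60) a2 * 15708) 10000))) := by
    unfold csU
    simp only [sq_eq, nmin_eq, shl, one_mul]
    rfl
  rw [hdef]
  exact cs_alg _ _ _ _ hC1 hqa hqb s1 s2 s3 hu hv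

theorem fl_le (n a : ℕ) (y : ℝ) (h : (n : ℝ) / a / 8192 ≤ y) (h8 : 8192 ≤ n / a) :
    (((n / a - 8192 : ℕ)) : ℝ) / 8192 ≤ y - 1 := by
  rw [Nat.cast_sub h8]
  have h1 : ((n / a : ℕ) : ℝ) ≤ (n : ℝ) / a := Nat.cast_div_le
  push_cast
  linarith

theorem ce_ge (n a : ℕ) (ha : 0 < a) (y : ℝ) (h : y ≤ (n : ℝ) / a / 8192) :
    y - 1 ≤ (((cd n a - 8192 : ℕ)) : ℝ) / 8192 := by
  have h1 := cd_ge n a ha
  have h2 : ((cd n a : ℕ) : ℝ) - 8192 ≤ (((cd n a - 8192 : ℕ)) : ℝ) := by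
    generalize cd n a = m
    have : m ≤ (m - 8192) + 8192 := by omega
    have h3 : ((m : ℕ) : ℝ) ≤ (((m - 8192) + 8192 : ℕ) : ℝ) := by exact_mod_cast this
    push_cast at h3
    linarith
  linarith

theorem exp_part (a1 a2 : ℕ) (h1 : 2048 ≤ a1) (h12 : a1 ≤ a2) (h2 : a2 < 4096) (θ : ℝ)
    (ht1 : (a1 : ℝ) / 8192 ≤ θ) (ht2 : θ ≤ (a2 : ℝ) / 8192) :
    (pA a2 : ℝ) / 8192 ≤ 1 / θ - 1 ∧ 1 / θ - 1 ≤ (pB a1 : ℝ) / 8192 ∧
    (pC a2 : ℝ) / 8192 ≤ 2 / θ - 1 ∧ 2 / θ - 1 ≤ (pD a1 : ℝ) / 8192 ∧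
    8192 ≤ pA a2 ∧ pA a2 ≤ pB a1 ∧ pB a1 ≤ 24576 ∧ 24576 ≤ pC a2 ∧ pC a2 ≤ pD a1 ∧ pD a1 ≤ 57344 := by
  obtain ⟨hq1, hq2, hθ⟩ := q_bounds a1 a2 h1 h12 h2 θ ht1 ht2
  have r1 : (2048 : ℝ) ≤ a1 := by exact_mod_cast h1
  have ha1 : (0 : ℝ) < a1 := by linarith
  have r12 : (a1 : ℝ) ≤ a2 := by exact_mod_cast h12
  have ha2 : (0 : ℝ) < a2 := by linarith
  have e2 : 2 / θ = 2 * (1 / θ) := by ring
  have k1 : 16384 ≤ 67108864 / a2 := by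
    rw [Nat.le_div_iff_mul_le (by omega)]
    omega
  have k2 : 32768 ≤ 134217728 / a2 := by
    rw [Nat.le_div_iff_mul_le (by omega)]
    omega
  have k3 : cd 67108864 a1 ≤ 32768 := cd_le_of _ _ _ (by omega) (by omega)
  have k4 : cd 134217728 a1 ≤ 65536 := cd_le_of _ _ _ (by omega) (by omega)
  have k5 : ∀ n : ℕ, n / a2 ≤ cd n a1 := by
    intro n
    have h5 : n / a2 ≤ n / a1 := Nat.div_le_div_left h12 (by omega)
    have h6 : n / a1 ≤ cd n a1 := by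
      rw [cd_def]
      exact Nat.div_le_div_right (by omega)
    omega
  have dA : pA a2 = 67108864 / a2 - 8192 := rfl
  have dB : pB a1 = cd 67108864 a1 - 8192 := rfl
  have dC : pC a2 = 134217728 / a2 - 8192 := rfl
  have dD : pD a1 = cd 134217728 a1 - 8192 := rfl
  have k6 := k5 67108864
  have k7 := k5 134217728
  refine ⟨?_, ?_, ?_, ?_, ?_, ?_, ?_, ?_, ?_, ?_⟩
  · rw [dA]
    refine fl_le _ _ _ (le_trans (le_of_eq ?_) hq1) (by omega)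
    push_cast
    ring
  · rw [dB]
    refine ce_ge _ _ (by omega) _ (le_trans hq2 (le_of_eq ?_))
    push_cast
    ring
  · rw [dC]
    refine fl_le _ _ _ ?_ (by omega)
    rw [e2]
    push_cast
    calc (134217728 : ℝ) / a2 / 8192 = 2 * (8192 / a2) := by ring
      _ ≤ 2 * (1 / θ) := by gcongr
  · rw [dD]
    refine ce_ge _ _ (by omega) _ ?_
    rw [e2]
    push_cast
    calc 2 * (1 / θ) ≤ 2 * (8192 / a1) := by gcongr
      _ = (134217728 : ℝ) / a1 / 8192 := by ring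
  · omega
  · omega
  · omega
  · omega
  · omega
  · omega

theorem bE : Pool.Agent.Helper63.P705.BE := by
  intro hN hA hB hD hS a1 a2 h1 h12 h2 θ ht1 ht2
  have r1 : (2048 : ℝ) ≤ a1 := by exact_mod_cast h1
  have r2 : (a2 : ℝ) < 4096 := by exact_mod_cast h2
  have hlo : 1 / 4 ≤ θ := by linarith
  have hhi : θ < 1 / 2 := by linarith
  obtain ⟨c1, c2⟩ := sin_part hD a1 h1 (by omega) θ ht1 hhi.le
  obtain ⟨d1, d2⟩ := Nn_part hN hB a1 h1 (by omega) θ ht1 hhi.le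
  exact ⟨tLo_le hN hA hB a1 a2 h1 h12 h2 θ ht1 ht2, tk_ge θ (by linarith) (by linarith), c1, c2, d1, d2,
    cs_part hS a1 a2 h1 h12 h2 θ ht1 ht2, exp_part a1 a2 h1 h12 h2 θ ht1 ht2⟩

end Pool.Agent.Helper93.BS
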